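import Mathlib

set_option autoImplicit false

/-!
# Harmonic majorant on a rectangle
-/

namespace Pool.Agent.W240.SZ

open Complex Set Metric

lemma cos_re (β : ℝ) (w : ℂ) : (Complex.cos (β * w)).re = Real.cos (β * w.re) * Real.cosh (β * w.im) := by
  have e : (β : ℂ) * w = ((β * w.re : ℝ) : ℂ) + ((β * w.im : ℝ) : ℂ) * I := by
    apply Complex.ext <;> simp
  rw [e, Complex.cos_add_mul_I, ← Complex.ofReal_cos, ← Complex.ofReal_cosh, ← Complex.ofReal_sin,
    ← Complex.ofReal_sinh]
  simp only [Complex.sub_re, Complex.mul_re, Complex.ofReal_re, Complex.ofReal_im, Complex.I_re,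
    Complex.I_im, Complex.mul_im]
  ring

/-- maximum principle on a rectangle -/
lemma rect1 {g : ℂ → ℂ} (hg : Differentiable ℂ g) {h β R A : ℝ} (hh : 0 < h) (hR : 0 < R)
    (h1 : ∀ w : ℂ, |w.re| ≤ h → |w.im| ≤ R → (|w.re| = h ∨ |w.im| = R) →
      (g w).re ≤ A * (Real.cos (β * w.re) * Real.cosh (β * w.im))) :
    ∀ w : ℂ, |w.re| ≤ h → |w.im| ≤ R → (g w).re ≤ A * (Real.cos (β * w.re) * Real.cosh (β * w.im)) := by
  obtain ⟨F, hF⟩ : ∃ F : ℂ → ℂ, F = fun w => cexp (g w - A * Complex.cos (β * w)) := ⟨_, rfl⟩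
  have hFd : Differentiable ℂ F := by
    rw [hF]
    fun_prop
  have hFn : ∀ w, ‖F w‖ = Real.exp ((g w).re - A * (Real.cos (β * w.re) * Real.cosh (β * w.im))) := by
    intro w
    rw [hF]
    simp only [Complex.norm_exp, Complex.sub_re, Complex.re_ofReal_mul, cos_re]
  have hb : Bornology.IsBounded (Ioo (-h) h ×ℂ Ioo (-R) R) :=
    (isBounded_Ioo (-h) h).reProdIm (isBounded_Ioo (-R) R)
  have hcl1 : closure (Ioo (-h) h) = Icc (-h) h := closure_Ioo (by linarith)
  have hcl2 : closure (Ioo (-R) R) = Icc (-R) R := closure_Ioo (by linarith)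
  have hfr1 : frontier (Ioo (-h) h) = {-h, h} := frontier_Ioo (by linarith)
  have hfr2 : frontier (Ioo (-R) R) = {-R, R} := frontier_Ioo (by linarith)
  intro w hw1 hw2
  have hmem : w ∈ closure (Ioo (-h) h ×ℂ Ioo (-R) R) := by
    rw [Complex.closure_reProdIm, hcl1, hcl2]
    exact ⟨abs_le.1 hw1, abs_le.1 hw2⟩
  have hmax := Complex.norm_le_of_forall_mem_frontier_norm_le hb (f := F) (C := 1)
    hFd.diffContOnCl (by
      intro z hz
      rw [Complex.frontier_reProdIm, hcl1, hcl2, hfr1, hfr2] at hz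
      rw [hFn, Real.exp_le_one_iff, sub_nonpos]
      rcases hz with hz | hz
      · have hz1 : z.re ∈ Icc (-h) h := hz.1
        have hz2 : z.im = -R ∨ z.im = R := hz.2
        have hz2' : |z.im| = R := by
          rcases hz2 with h2 | h2
          · rw [h2, abs_neg, abs_of_pos hR]
          · rw [h2, abs_of_pos hR]
        exact h1 z (abs_le.2 hz1) hz2'.le (Or.inr hz2')
      · have hz1 : z.im ∈ Icc (-R) R := hz.2
        have hz2 : z.re = -h ∨ z.re = h := hz.1
        have hz2' : |z.re| = h := by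
          rcases hz2 with h2 | h2
          · rw [h2, abs_neg, abs_of_pos hh]
          · rw [h2, abs_of_pos hh]
        exact h1 z hz2'.le (abs_le.2 hz1) (Or.inl hz2')) hmem
  rw [hFn, Real.exp_le_one_iff, sub_nonpos] at hmax
  exact hmax

/-- two-sided version -/
lemma rect2 {g : ℂ → ℂ} (hg : Differentiable ℂ g) {h β R A : ℝ} (hh : 0 < h) (hR : 0 < R)
    (h1 : ∀ w : ℂ, |w.re| ≤ h → |w.im| ≤ R → (|w.re| = h ∨ |w.im| = R) →
      |(g w).re| ≤ A * (Real.cos (β * w.re) * Real.cosh (β * w.im))) :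
    ∀ w : ℂ, |w.re| ≤ h → |w.im| ≤ R → |(g w).re| ≤ A * (Real.cos (β * w.re) * Real.cosh (β * w.im)) := by
  intro w hw1 hw2
  rw [abs_le]
  constructor
  · have := rect1 (g := fun w => -(g w)) hg.neg (β := β) (A := A) hh hR (by
      intro w a b c
      have := (abs_le.1 (h1 w a b c)).1
      rw [Complex.neg_re]
      linarith) w hw1 hw2
    rw [Complex.neg_re] at this
    linarith
  · exact rect1 hg hh hR (fun w a b c => (abs_le.1 (h1 w a b c)).2) w hw1 hw2

/-- bound at a real point -/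
lemma rect3 {g : ℂ → ℂ} (hg : Differentiable ℂ g) {h β R A : ℝ} (hh : 0 < h) (hR : h ≤ R)
    (hA : 0 < A) (h0 : (g 0).im = 0)
    (h1 : ∀ w : ℂ, |w.re| ≤ h → |w.im| ≤ R → (|w.re| = h ∨ |w.im| = R) →
      |(g w).re| ≤ A * (Real.cos (β * w.re) * Real.cosh (β * w.im))) {r : ℝ} (hr0 : 0 < r) (hr : r < h) :
    ‖g r‖ ≤ (2 * Real.cosh (β * h) * r / (h - r) + (h + r) / (h - r)) * A := by
  have hmain := rect2 hg hh (hh.trans_le hR) h1
  have hg0 : ‖g 0‖ ≤ A := by
    have e : g 0 = (((g 0).re : ℝ) : ℂ) := by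
      apply Complex.ext
      · simp
      · simp [h0]
    rw [e, Complex.norm_real, Real.norm_eq_abs]
    have := hmain 0 (by simp [hh.le]) (by simp; linarith)
    simpa using this
  have hpos : 0 < Real.cosh (β * h) := Real.cosh_pos _
  have key := Complex.borelCaratheodory (f := g) (M := A * Real.cosh (β * h)) (R := h) (z := (r : ℂ))
    (by positivity) hg.differentiableOn (by
      intro w hw
      have hw' : ‖w‖ < h := mem_ball_zero_iff.1 hw
      have a1 : |w.re| ≤ h := (Complex.abs_re_le_norm w).trans hw'.le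
      have a2 : |w.im| ≤ h := (Complex.abs_im_le_norm w).trans hw'.le
      have a3 := (le_abs_self _).trans (hmain w a1 (a2.trans hR))
      refine a3.trans ?_
      apply mul_le_mul_of_nonneg_left _ hA.le
      calc Real.cos (β * w.re) * Real.cosh (β * w.im) ≤ 1 * Real.cosh (β * w.im) :=
            mul_le_mul_of_nonneg_right (Real.cos_le_one _) (Real.cosh_pos _).le
        _ = Real.cosh (β * w.im) := one_mul _
        _ ≤ Real.cosh (β * h) := by
            rw [Real.cosh_le_cosh, abs_mul, abs_mul, abs_of_pos hh]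
            exact mul_le_mul_of_nonneg_left a2 (abs_nonneg _)) hh (by
      rw [mem_ball_zero_iff, Complex.norm_real, Real.norm_eq_abs, abs_of_pos hr0]
      exact hr)
  rw [Complex.norm_real, Real.norm_eq_abs, abs_of_pos hr0] at key
  refine key.trans ?_
  have hd : 0 < h - r := by linarith
  have : ‖g 0‖ * (h + r) / (h - r) ≤ A * (h + r) / (h - r) := by
    gcongr
  refine (add_le_add le_rfl this).trans (le_of_eq ?_)
  ring

end Pool.Agent.W240.SZ
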