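import Pool.Agent.W186.SZ.Spec
import Pool.Agent.W240.SZ.Rect

set_option autoImplicit false

/-!
# From the real part on two lines to the exponent of zeta
-/

namespace Pool.Agent.W240.SZ

open Complex Filter Topology Set
open Pool.Agent.H24R2.JP (XX HH Om)
open Pool.Agent.W186.HZ (HH_move Om_half Om_large ct_half)
open Pool.Agent.W186.DX (HH_decay XX_conj)
open Pool.Agent.W186.LH (Ex Ex_of)
open Pool.Agent.W186.SX (Up up_prof)
open Pool.Agent.W186.SZ (DD LineB)
open Pool.Agent.H24R2.JP.B1h (XX_neg XX_diff)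

/-- the twisted function -/
noncomputable def gT (lam T : ℝ) (w : ℂ) : ℂ := XX (I * T + w) * cexp (-(I * lam * w))

lemma gT_diff (lam T : ℝ) : Differentiable ℂ (gT lam T) := by
  unfold gT
  have h1 : Differentiable ℂ (fun w : ℂ => XX (I * T + w)) :=
    XX_diff.comp (by fun_prop)
  have h2 : Differentiable ℂ (fun w : ℂ => cexp (-(I * lam * w))) := by fun_prop
  exact h1.mul h2

lemma XX_refl (y x : ℝ) : XX (I * y - x) = (starRingEnd ℂ) (XX (I * y + x)) := by
  rw [← XX_conj, ← XX_neg]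
  congr 1
  apply Complex.ext <;> simp

lemma gT_zero (lam T : ℝ) : (gT lam T 0).im = 0 := by
  unfold gT
  have h := XX_refl T 0
  rw [Complex.ofReal_zero, sub_zero, add_zero] at h
  have h2 := congrArg Complex.im h
  rw [Complex.conj_im] at h2
  simp only [mul_zero, neg_zero, Complex.exp_zero, mul_one, add_zero]
  linarith

lemma norm_gT (lam T : ℝ) (w : ℂ) : ‖gT lam T w‖ = Real.exp (lam * w.im) * ‖XX (I * T + w)‖ := by
  unfold gT
  rw [norm_mul, Complex.norm_exp, mul_comm]
  congr 2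
  simp

/-- the real part on the two lines -/
lemma re_gT {c : ℂ} {h al lam T : ℝ} (hc : c = cexp (2 * (I * al))) (hl : lam * h = al) (w : ℂ)
    (hw : |w.re| = h) : |(gT lam T w).re| = Real.exp (lam * w.im) * ‖DD c h (I * ((T + w.im : ℝ) : ℂ))‖ / 2 := by
  obtain ⟨f, hf⟩ : ∃ f : ℂ, f = XX (I * ((T + w.im : ℝ) : ℂ) + h) := ⟨_, rfl⟩
  obtain ⟨e, he⟩ : ∃ e : ℂ, e = cexp (-(I * al)) := ⟨_, rfl⟩
  have hen : ‖e‖ = 1 := by rw [he, Complex.norm_exp]; simp
  have hec : e * c = (starRingEnd ℂ) e := by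
    rw [he, hc, ← Complex.exp_add, ← Complex.exp_conj]
    congr 1
    simp
    ring
  have hD : e * DD c h (I * ((T + w.im : ℝ) : ℂ)) = ((2 * (e * f).re : ℝ) : ℂ) := by
    unfold DD
    rw [XX_refl, ← hf, mul_add, ← mul_assoc, hec, ← map_mul, Complex.add_conj]
  have hDn : ‖DD c h (I * ((T + w.im : ℝ) : ℂ))‖ = 2 * |(e * f).re| := by
    have h1 := congrArg norm hD
    rw [norm_mul, hen, one_mul, Complex.norm_real, Real.norm_eq_abs, abs_mul] at h1
    rw [h1]
    norm_num
  rw [hDn]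
  have hg : (gT lam T w).re = Real.exp (lam * w.im) * (e * f).re := by
    have hcase : w.re = h ∨ w.re = -h := by
      rcases abs_choice w.re with h1 | h1
      · left; rw [← h1, hw]
      · right; rw [← hw, h1, neg_neg]
    rcases hcase with h1 | h1
    · have e1 : I * (T : ℂ) + w = I * ((T + w.im : ℝ) : ℂ) + h := by
        apply Complex.ext <;> simp [h1]
      have e2 : -(I * lam * w) = -(I * al) + ((lam * w.im : ℝ) : ℂ) := by
        apply Complex.ext
        · simp
        · simp [h1, hl]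
      unfold gT
      rw [e1, ← hf, e2, Complex.exp_add, ← he, ← Complex.ofReal_exp]
      have : f * (e * ((Real.exp (lam * w.im) : ℝ) : ℂ)) = ((Real.exp (lam * w.im) : ℝ) : ℂ) * (e * f) := by ring
      rw [this, Complex.re_ofReal_mul]
    · have e1 : I * (T : ℂ) + w = I * ((T + w.im : ℝ) : ℂ) - h := by
        apply Complex.ext <;> simp [h1]
      have e2 : -(I * lam * w) = (I * al) + ((lam * w.im : ℝ) : ℂ) := by
        apply Complex.ext
        · simp
        · simp [h1, hl]
      have he' : cexp (I * al) = (starRingEnd ℂ) e := by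
        rw [he, ← Complex.exp_conj]
        congr 1
        simp
      unfold gT
      rw [e1, XX_refl, ← hf, e2, Complex.exp_add, he', ← Complex.ofReal_exp]
      have : (starRingEnd ℂ) f * ((starRingEnd ℂ) e * ((Real.exp (lam * w.im) : ℝ) : ℂ)) =
          ((Real.exp (lam * w.im) : ℝ) : ℂ) * (starRingEnd ℂ) (e * f) := by
        rw [map_mul]; ring
      rw [this, Complex.re_ofReal_mul, Complex.conj_re]
  rw [hg, abs_mul, abs_of_pos (Real.exp_pos _)]
  ring

/-- growth of the gamma factor with the twist -/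
lemma HH_tw : ∃ T0 : ℝ, 400 ≤ T0 ∧ ∀ (T v lam be : ℝ), T0 ≤ T → |v| ≤ T / 2 → 0 ≤ lam →
    lam ≤ be + 1 / 4 → 5 / 4 ≤ be →
    Real.exp (lam * v) * ‖HH (I * ((T + v : ℝ) : ℂ))‖ ≤ Real.exp ((be - 1 / 4) * |v|) * ‖HH (I * T)‖ := by
  obtain ⟨T1, hT1, h1⟩ := HH_move
  obtain ⟨T2, hT2, h2⟩ := HH_decay
  refine ⟨2 * max T1 T2, by linarith [le_max_left T1 T2], fun T v lam be hT hv hl hlb hb => ?_⟩
  have g1 : 2 * T1 ≤ T := le_trans (by linarith [le_max_left T1 T2]) hT
  have g2 : 2 * T2 ≤ T := le_trans (by linarith [le_max_right T1 T2]) hT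
  have hv' := abs_le.1 hv
  rcases le_total 0 v with h0 | h0
  · have h3 := h2 (I * T) v (by simp) (by simp) (by simp; linarith) h0
    have e : I * ((T + v : ℝ) : ℂ) = I * T + I * v := by push_cast; ring
    rw [e, abs_of_nonneg h0]
    calc Real.exp (lam * v) * ‖HH (I * T + I * v)‖
        ≤ Real.exp (lam * v) * (Real.exp (-(v / 2)) * ‖HH (I * T)‖) :=
          mul_le_mul_of_nonneg_left h3 (Real.exp_pos _).le
      _ = Real.exp (lam * v + -(v / 2)) * ‖HH (I * T)‖ := by rw [← mul_assoc, ← Real.exp_add]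
      _ ≤ _ := by
          apply mul_le_mul_of_nonneg_right _ (norm_nonneg _)
          apply Real.exp_le_exp.2
          nlinarith
  · have h3 := h1 T v (by linarith) (by linarith)
    rw [abs_of_nonpos h0] at h3 ⊢
    calc Real.exp (lam * v) * ‖HH (I * ((T + v : ℝ) : ℂ))‖
        ≤ Real.exp (lam * v) * (Real.exp (-v) * ‖HH (I * T)‖) :=
          mul_le_mul_of_nonneg_left h3 (Real.exp_pos _).le
      _ = Real.exp (lam * v + -v) * ‖HH (I * T)‖ := by rw [← mul_assoc, ← Real.exp_add]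
      _ ≤ _ := by
          apply mul_le_mul_of_nonneg_right _ (norm_nonneg _)
          apply Real.exp_le_exp.2
          nlinarith

/-- the bound of the shifted line -/
lemma core {c : ℂ} {h : ℝ} (hc : ‖c‖ = 1) (hci : 0 ≤ c.im) (hh : 0 < h) (hh2 : h ≤ 1 / 2)
    (hL : LineB c h) {r : ℝ} (hr0 : 0 < r) (hr : r < h) : ∃ K : ℝ, 0 < K ∧ ∀ ε : ℝ, 0 < ε → ε ≤ 1 →
    ∃ T0 : ℝ, 400 ≤ T0 ∧ ∀ T : ℝ, T0 ≤ T →
      ‖XX (I * T + r)‖ ≤ K * (Real.exp (Om T * (h + ε)) * ‖HH (I * T)‖) := by
  obtain ⟨al, hal⟩ : ∃ al : ℝ, al = Complex.arg c / 2 := ⟨_, rfl⟩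
  have hal0 : 0 ≤ al := by
    have := Complex.arg_nonneg_iff.2 hci
    rw [hal]; linarith
  have hal1 : al ≤ Real.pi / 2 := by
    have := Complex.arg_le_pi c
    rw [hal]; linarith
  have hce : c = cexp (2 * (I * al)) := by
    have h1 := Complex.norm_mul_exp_arg_mul_I c
    rw [hc, Complex.ofReal_one, one_mul] at h1
    rw [hal]
    refine h1.symm.trans ?_
    congr 1
    push_cast
    ring
  obtain ⟨lam, hlam⟩ : ∃ lam : ℝ, lam = al / h := ⟨_, rfl⟩
  have hl : lam * h = al := by rw [hlam]; field_simp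
  have hlam0 : 0 ≤ lam := by rw [hlam]; positivity
  obtain ⟨be, hbe⟩ : ∃ be : ℝ, be = Real.pi / (2 * h) - 1 / 4 := ⟨_, rfl⟩
  have hpi := Real.pi_gt_three
  have hbe3 : 3 ≤ Real.pi / (2 * h) := by
    rw [le_div_iff₀ (by linarith)]
    linarith
  have hlb : lam ≤ be + 1 / 4 := by
    rw [hlam, hbe, div_le_iff₀ hh]
    have : (Real.pi / (2 * h) - 1 / 4 + 1 / 4) * h = Real.pi / 2 := by field_simp; ring
    rw [this]
    exact hal1
  have hb54 : 5 / 4 ≤ be := by rw [hbe]; linarith
  have hbh : be * h = Real.pi / 2 - h / 4 := by rw [hbe]; field_simp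
  have hcos : 0 < Real.cos (be * h) := by
    apply Real.cos_pos_of_mem_Ioo
    rw [hbh]
    constructor <;> linarith
  obtain ⟨C, hC⟩ : ∃ C : ℝ, C = 2 * Real.cosh (be * h) * r / (h - r) + (h + r) / (h - r) := ⟨_, rfl⟩
  have hC0 : 0 < C := by
    rw [hC]
    have : 0 < h - r := by linarith
    have := Real.cosh_pos (be * h)
    positivity
  refine ⟨C * (Real.exp 2 / Real.cos (be * h)), by positivity, fun ε hε hε1 => ?_⟩
  obtain ⟨T1, h1⟩ := hL ε hε
  obtain ⟨T2, hT2, h2⟩ := up_prof (y := 1 / 2) (by norm_num) le_rfl ct_half (1 / 2) 1 (by norm_num) le_rfl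
  obtain ⟨T3, hT3, h3⟩ := HH_tw
  obtain ⟨T4, hT4, h4⟩ := Pool.Agent.W186.DX.win 100 (by norm_num)
  refine ⟨max (2 * max T1 T2) (max T3 T4), (hT3.trans (le_max_left _ _)).trans (le_max_right _ _), fun T hT => ?_⟩
  have g1 : 2 * T1 ≤ T := le_trans (by linarith [le_max_left T1 T2]) ((le_max_left _ _).trans hT)
  have g2 : 2 * T2 ≤ T := le_trans (by linarith [le_max_right T1 T2]) ((le_max_left _ _).trans hT)
  have g3 : T3 ≤ T := (le_max_left _ _).trans ((le_max_right _ _).trans hT)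
  have g4 : T4 ≤ T := (le_max_right _ _).trans ((le_max_right _ _).trans hT)
  have hT400 : 400 ≤ T := hT3.trans g3
  obtain ⟨L, hLdef⟩ : ∃ L : ℝ, L = Om T := ⟨_, rfl⟩
  have hlog : Real.log T = 2 * L := by rw [hLdef]; unfold Om; ring
  have hl1 : 1 ≤ 2 * L := by
    rw [← hlog]
    exact (h4 T T g4 (by simp; have := Real.log_nonneg (show (1 : ℝ) ≤ T by linarith); positivity)).2.2
  obtain ⟨R, hR⟩ : ∃ R : ℝ, R = 8 * (L + 3) := ⟨_, rfl⟩
  have hRT : R ≤ T / 2 := by
    have h5 := (h4 T (T - 100 * Real.log T) g4 (by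
      rw [sub_sub_cancel_left, abs_neg, abs_of_nonneg]
      have := Real.log_nonneg (show (1 : ℝ) ≤ T by linarith)
      positivity)).1
    rw [hlog] at h5
    linarith
  have hRh : h ≤ R := by linarith
  have hHH : 0 ≤ ‖HH (I * T)‖ := norm_nonneg _
  have hHHp : 0 < ‖HH (I * T)‖ := by
    have h0 : HH (I * T) ≠ 0 := by
      apply Pool.Agent.H24R2.JP.StirAux.HH_ne
      simp; linarith
    exact norm_pos_iff.2 h0
  obtain ⟨A, hA⟩ : ∃ A : ℝ, A = Real.exp (L * (h + ε) + 2) * ‖HH (I * T)‖ / Real.cos (be * h) := ⟨_, rfl⟩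
  have hA0 : 0 < A := by rw [hA]; positivity
  have hAc : A * Real.cos (be * h) = Real.exp (L * (h + ε) + 2) * ‖HH (I * T)‖ := by
    rw [hA, div_mul_cancel₀ _ hcos.ne']
  have hbe0 : 0 ≤ be := by linarith
  have hOm : ∀ v : ℝ, |v| ≤ R → Om (T + v) ≤ L + 1 / 2 := by
    intro v hv
    have := Om_half (T' := T + v) hT400 (by rw [add_sub_cancel_left]; linarith)
    rw [← hLdef] at this
    linarith [(abs_le.1 this).2]
  have hecosh : ∀ v : ℝ, Real.exp (be * |v|) ≤ 2 * Real.cosh (be * v) := by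
    intro v
    have e : Real.cosh (be * v) = Real.cosh (be * |v|) := by
      rw [← Real.cosh_abs, abs_mul, abs_of_nonneg hbe0]
    rw [e, Real.cosh_eq]
    have := Real.exp_pos (-(be * |v|))
    linarith
  have hbound : ∀ w : ℂ, |w.re| ≤ h → |w.im| ≤ R → (|w.re| = h ∨ |w.im| = R) →
      |(gT lam T w).re| ≤ A * (Real.cos (be * w.re) * Real.cosh (be * w.im)) := by
    intro w hw1 hw2 hor
    have hwT : |w.im| ≤ T / 2 := hw2.trans hRT
    have hwT' := abs_le.1 hwT
    have htw := h3 T w.im lam be g3 hwT hlam0 hlb hb54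
    have hO := hOm w.im hw2
    by_cases hre : |w.re| = h
    · -- vertical sides
      rw [re_gT hce hl w hre]
      have hD := h1 (T + w.im) (by linarith)
      have hcw : Real.cos (be * w.re) = Real.cos (be * h) := by
        rw [← Real.cos_abs, abs_mul, abs_of_nonneg hbe0, hre]
      rw [hcw, ← mul_assoc, hAc]
      have e1 : Real.exp (Om (T + w.im) * (h + ε)) ≤ Real.exp (L * (h + ε) + 1) := by
        apply Real.exp_le_exp.2
        nlinarith
      calc Real.exp (lam * w.im) * ‖DD c h (I * ((T + w.im : ℝ) : ℂ))‖ / 2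
          ≤ Real.exp (lam * w.im) * (Real.exp (L * (h + ε) + 1) * ‖HH (I * ((T + w.im : ℝ) : ℂ))‖) / 2 := by
            have : ‖DD c h (I * ((T + w.im : ℝ) : ℂ))‖ ≤
                Real.exp (L * (h + ε) + 1) * ‖HH (I * ((T + w.im : ℝ) : ℂ))‖ :=
              hD.trans (mul_le_mul_of_nonneg_right e1 (norm_nonneg _))
            gcongr
        _ = Real.exp (L * (h + ε) + 1) * (Real.exp (lam * w.im) * ‖HH (I * ((T + w.im : ℝ) : ℂ))‖) / 2 := by
            ring
        _ ≤ Real.exp (L * (h + ε) + 1) * (Real.exp ((be - 1 / 4) * |w.im|) * ‖HH (I * T)‖) / 2 := by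
            gcongr
        _ ≤ Real.exp (L * (h + ε) + 2) * (Real.exp (be * |w.im|) * ‖HH (I * T)‖) / 2 := by
            have a1 : Real.exp (L * (h + ε) + 1) ≤ Real.exp (L * (h + ε) + 2) :=
              Real.exp_le_exp.2 (by linarith)
            have a2 : Real.exp ((be - 1 / 4) * |w.im|) ≤ Real.exp (be * |w.im|) :=
              Real.exp_le_exp.2 (by nlinarith [abs_nonneg w.im])
            gcongr
        _ ≤ Real.exp (L * (h + ε) + 2) * (2 * Real.cosh (be * w.im) * ‖HH (I * T)‖) / 2 := by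
            have := hecosh w.im
            gcongr
        _ = Real.exp (L * (h + ε) + 2) * ‖HH (I * T)‖ * Real.cosh (be * w.im) := by ring
    · -- horizontal sides
      have him : |w.im| = R := hor.resolve_left hre
      have hX := h2 (T + w.im) (w.re : ℂ) (by linarith) (by simp; linarith) (by simp)
      rw [Complex.ofReal_re] at hX
      have e1 : I * (T : ℂ) + w = I * ((T + w.im : ℝ) : ℂ) + (w.re : ℂ) := by
        apply Complex.ext <;> simp
      have hmax : max |w.re| (1 / 2) + 1 / 2 = (1 : ℝ) := by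
        rw [max_eq_right (by linarith)]; norm_num
      rw [hmax, mul_one] at hX
      have hcw : Real.cos (be * h) ≤ Real.cos (be * w.re) := by
        rw [← Real.cos_abs (be * w.re), abs_mul, abs_of_nonneg hbe0]
        apply Real.cos_le_cos_of_nonneg_of_le_pi (by positivity)
        · rw [hbh]; linarith
        · exact mul_le_mul_of_nonneg_left hw1 hbe0
      calc |(gT lam T w).re| ≤ ‖gT lam T w‖ := Complex.abs_re_le_norm _
        _ = Real.exp (lam * w.im) * ‖XX (I * ((T + w.im : ℝ) : ℂ) + (w.re : ℂ))‖ := by rw [norm_gT, e1]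
        _ ≤ Real.exp (lam * w.im) * (Real.exp (Om (T + w.im)) * ‖HH (I * ((T + w.im : ℝ) : ℂ))‖) := by
            gcongr
        _ ≤ Real.exp (lam * w.im) * (Real.exp (L + 1 / 2) * ‖HH (I * ((T + w.im : ℝ) : ℂ))‖) := by
            gcongr
        _ = Real.exp (L + 1 / 2) * (Real.exp (lam * w.im) * ‖HH (I * ((T + w.im : ℝ) : ℂ))‖) := by ring
        _ ≤ Real.exp (L + 1 / 2) * (Real.exp ((be - 1 / 4) * |w.im|) * ‖HH (I * T)‖) := by gcongr
        _ = Real.exp (L + 1 / 2 + (be - 1 / 4) * |w.im|) * ‖HH (I * T)‖ := by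
            rw [← mul_assoc, ← Real.exp_add]
        _ ≤ Real.exp (L * (h + ε) + 1 + be * |w.im|) * ‖HH (I * T)‖ := by
            apply mul_le_mul_of_nonneg_right _ hHH
            apply Real.exp_le_exp.2
            rw [him, hR]
            have : 0 ≤ L * (h + ε) := by
              have : 0 ≤ L := by linarith
              positivity
            linarith
        _ = Real.exp (L * (h + ε) + 1) * ‖HH (I * T)‖ * Real.exp (be * |w.im|) := by
            rw [Real.exp_add]; ring
        _ ≤ Real.exp (L * (h + ε) + 1) * ‖HH (I * T)‖ * (2 * Real.cosh (be * w.im)) := by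
            have := hecosh w.im
            gcongr
        _ ≤ Real.exp (L * (h + ε) + 2) * ‖HH (I * T)‖ * Real.cosh (be * w.im) := by
            have a1 : 2 * Real.exp (L * (h + ε) + 1) ≤ Real.exp (L * (h + ε) + 2) := by
              have e3 : L * (h + ε) + 2 = 1 + (L * (h + ε) + 1) := by ring
              rw [e3, Real.exp_add 1]
              have := Real.add_one_le_exp (1 : ℝ)
              have := Real.exp_pos (L * (h + ε) + 1)
              nlinarith
            have a2 : 0 ≤ ‖HH (I * T)‖ * Real.cosh (be * w.im) := by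
              have := Real.cosh_pos (be * w.im)
              positivity
            calc _ = (2 * Real.exp (L * (h + ε) + 1)) * (‖HH (I * T)‖ * Real.cosh (be * w.im)) := by ring
              _ ≤ Real.exp (L * (h + ε) + 2) * (‖HH (I * T)‖ * Real.cosh (be * w.im)) :=
                  mul_le_mul_of_nonneg_right a1 a2
              _ = _ := by ring
        _ = A * Real.cos (be * h) * Real.cosh (be * w.im) := by rw [hAc]
        _ ≤ A * Real.cos (be * w.re) * Real.cosh (be * w.im) := by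
            have := (Real.cosh_pos (be * w.im)).le
            gcongr
        _ = _ := by ring
  have hfin := rect3 (gT_diff lam T) hh hRh hA0 (gT_zero lam T) hbound hr0 hr
  rw [← hC, norm_gT] at hfin
  simp only [Complex.ofReal_im, mul_zero, Real.exp_zero, one_mul] at hfin
  refine hfin.trans (le_of_eq ?_)
  rw [hA, ← hLdef, Real.exp_add]
  ring

/-- the exponent at `1/2 + r` -/
lemma exr {c : ℂ} {h : ℝ} (hc : ‖c‖ = 1) (hci : 0 ≤ c.im) (hh : 0 < h) (hh2 : h ≤ 1 / 2)
    (hL : LineB c h) {r : ℝ} (hr0 : 0 < r) (hr : r < h) : Ex (1 / 2 + r) ((h - r) / 2) := by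
  obtain ⟨K, hK, hcore⟩ := core hc hci hh hh2 hL hr0 hr
  obtain ⟨KH, hKH, hHH⟩ := Pool.Agent.H986R2.K4.hh
  obtain ⟨T3, hT3, hH⟩ := hHH 1 le_rfl
  refine Ex_of _ _ (by linarith) fun ε hε => ?_
  obtain ⟨η, hη⟩ : ∃ η : ℝ, η = min ε 1 := ⟨_, rfl⟩
  have hη0 : 0 < η := by rw [hη]; exact lt_min hε one_pos
  have hη1 : η ≤ 1 := by rw [hη]; exact min_le_right _ _
  have hηε : η ≤ ε := by rw [hη]; exact min_le_left _ _
  obtain ⟨T1, hT1, h1⟩ := hcore η hη0 hη1
  obtain ⟨T2, hT2, h2⟩ := Om_large ((|Real.log K| + KH) / ε)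
  refine ⟨max (max T1 T2) T3, fun T hT => ?_⟩
  have g1 : T1 ≤ T := ((le_max_left _ _).trans (le_max_left _ _)).trans hT
  have g2 : T2 ≤ T := ((le_max_right _ _).trans (le_max_left _ _)).trans hT
  have g3 : T3 ≤ T := (le_max_right _ _).trans hT
  have hTp : 0 < T := by linarith
  have hXX := h1 T g1
  have hO := h2 T g2
  rw [div_le_iff₀ hε] at hO
  obtain ⟨-, -, -, d3, -⟩ := hH T (r : ℂ) g3 (by
    rw [Complex.norm_real, Real.norm_eq_abs, abs_of_pos hr0]; linarith)
  rw [Complex.ofReal_re] at d3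
  have him : 0 < (I * (T : ℂ) + r).im := by simp; linarith
  have hz := Pool.Agent.H24R2.JP.zetaS.1 (I * T + r) him
  rw [hz, norm_mul] at hXX
  have e5 : (1 / 2 + (I * (T : ℂ) + r)) = ((1 / 2 + r : ℝ) : ℂ) + T * I := by push_cast; ring
  rw [e5] at hXX
  obtain ⟨Z, hZ⟩ : ∃ Z : ℝ, Z = ‖riemannZeta (((1 / 2 + r : ℝ) : ℂ) + T * I)‖ := ⟨_, rfl⟩
  rw [← hZ] at hXX ⊢
  have hZ0 : 0 ≤ Z := by rw [hZ]; exact norm_nonneg _
  have hHp : 0 < ‖HH (I * T)‖ := by
    have h0 : HH (I * T) ≠ 0 := by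
      apply Pool.Agent.H24R2.JP.StirAux.HH_ne
      simpa using hTp
    exact norm_pos_iff.2 h0
  have h8 : Real.exp (Om T * r - KH * 1) * ‖HH (I * T)‖ * Z ≤
      K * (Real.exp (Om T * (h + η)) * ‖HH (I * T)‖) :=
    (mul_le_mul_of_nonneg_right d3 hZ0).trans hXX
  have h9 : Real.exp (Om T * r - KH * 1) * Z ≤ K * Real.exp (Om T * (h + η)) := by
    refine le_of_mul_le_mul_right ?_ hHp
    linarith
  have hKe : K ≤ Real.exp |Real.log K| := by
    calc K = Real.exp (Real.log K) := (Real.exp_log hK).symm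
      _ ≤ _ := Real.exp_le_exp.2 (le_abs_self _)
  calc Z = Real.exp (-(Om T * r - KH * 1)) * (Real.exp (Om T * r - KH * 1) * Z) := by
        rw [← mul_assoc, ← Real.exp_add, neg_add_cancel, Real.exp_zero, one_mul]
    _ ≤ Real.exp (-(Om T * r - KH * 1)) * (K * Real.exp (Om T * (h + η))) :=
        mul_le_mul_of_nonneg_left h9 (Real.exp_pos _).le
    _ ≤ Real.exp (-(Om T * r - KH * 1)) * (Real.exp |Real.log K| * Real.exp (Om T * (h + η))) := by
        gcongr
    _ = Real.exp (-(Om T * r - KH * 1) + (|Real.log K| + Om T * (h + η))) := by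
        rw [← Real.exp_add, ← Real.exp_add]
    _ ≤ Real.exp (Real.log T * ((h - r) / 2 + ε)) := by
        apply Real.exp_le_exp.2
        have e6 : Real.log T = 2 * Om T := by unfold Om; ring
        rw [e6]
        have hO0 : 0 ≤ Om T := by
          unfold Om
          have := Real.log_nonneg (show (1 : ℝ) ≤ T by linarith)
          linarith
        nlinarith
    _ = T ^ ((h - r) / 2 + ε) := by rw [Real.rpow_def_of_pos hTp]

/-- Part STRIP -/
theorem strip : Pool.Agent.W186.SZ.S_STRIP := by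
  intro c h hc hci hh hh2 hL
  rcases eq_or_lt_of_le hh2 with h1 | h1
  · have e : (1 : ℝ) / 2 + h = 1 := by rw [h1]; norm_num
    rw [e]
    exact Pool.Agent.W186.EH.Ex_one
  · refine Pool.Agent.W186.EH.Ex_lim fun η hη => ?_
    obtain ⟨r, hr⟩ : ∃ r : ℝ, r = max (h / 2) (h - η) := ⟨_, rfl⟩
    have hr0 : h / 2 ≤ r := by rw [hr]; exact le_max_left _ _
    have hr1 : h - η ≤ r := by rw [hr]; exact le_max_right _ _
    have hr2 : r < h := by rw [hr]; exact max_lt (by linarith) (by linarith)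
    have hE := exr hc hci hh hh2 hL (r := r) (by linarith) hr2
    have h2 := Pool.Agent.W186.EH.Ex_interp (l := 1 / 2 + r) (u := 1) (a := (h - r) / 2) (b := 0)
      (by linarith) (by linarith) le_rfl (by linarith) le_rfl hE Pool.Agent.W186.EH.Ex_one
      (σ := 1 / 2 + h) (by linarith) (by linarith)
    refine ⟨_, ?_, h2⟩
    have h3 : 0 ≤ (1 / 2 + h - (1 / 2 + r)) / (1 - (1 / 2 + r)) :=
      div_nonneg (by linarith) (by linarith)
    have h4 : 0 ≤ (h - r) / 2 := by linarith
    nlinarith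

end Pool.Agent.W240.SZ
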